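import Pool.Agent.W737.SB.Defs

set_option autoImplicit false

open Metric Set

namespace Pool.Agent.W120.SB

open Pool.Agent.W737.SB

theorem isOpen_of_dat {n : ℕ} {Ω : Set (V n)} {ρ : V n → ℝ} (h : Dat Ω ρ) : IsOpen Ω := by
  rw [h.eq]
  exact isOpen_lt h.smooth.continuous continuous_const

/-- changing the base point of a frame by the ball automorphism -/
theorem fr_move (haut : S_aut) {n : ℕ} {Ω : Set (V n)} {f F : V n → V n} {z z' : V n}
    (hfr : Fr Ω f F z) (hz' : z' ∈ Ω) :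
    Fr Ω (fun x => f (aut (F z') x)) (fun w => aut (F z') (F w)) z' := by
  have ha : ‖F z'‖ < 1 := by
    have := hfr.hFm hz'
    simpa using this
  obtain ⟨hd, hm, hinv, h0, h1, -, -, -⟩ := haut n (F z') ha
  refine ⟨?_, ?_, ?_, ?_, ?_, ?_, ?_⟩
  · exact hfr.hf.comp hd hm
  · exact fun x hx => hfr.hfm (hm hx)
  · exact hd.comp hfr.hF hfr.hFm
  · exact fun w hw => hm (hfr.hFm hw)
  · intro ζ hζ
    show aut (F z') (F (f (aut (F z') ζ))) = ζ
    rw [hfr.left _ (hm hζ), hinv ζ hζ]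
  · intro w hw
    show f (aut (F z') (aut (F z') (F w))) = w
    rw [hinv _ (hfr.hFm hw), hfr.right w hw]
  · show f (aut (F z') 0) = z'
    rw [h0, hfr.right z' hz']

theorem t_cmp (hsp : S_sp) : S_cmp := by
  intro n Ω ρ hdat K t hK hKΩ ht
  obtain ⟨f₁, F₁, z₁, hfr₁⟩ := hdat.frame
  rcases K.eq_empty_or_nonempty with hKe | hKne
  · refine ⟨∅, isCompact_empty, empty_subset _, ?_⟩
    intro z hz
    rw [hKe] at hz
    exact absurd hz (notMem_empty z)
  -- the maximum of ‖F₁‖ on K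
  have hcont : ContinuousOn (fun z => ‖F₁ z‖) K := (hfr₁.hF.continuousOn.mono hKΩ).norm
  obtain ⟨z₀, hz₀, hmax⟩ := hK.exists_isMaxOn hKne hcont
  set m := ‖F₁ z₀‖ with hm
  have hm1 : m < 1 := by
    have := hfr₁.hFm (hKΩ hz₀)
    simpa [hm] using this
  have hm0 : 0 ≤ m := norm_nonneg _
  set t' := max t 0 with ht'
  have ht'0 : 0 ≤ t' := le_max_right _ _
  have ht'1 : t' < 1 := max_lt ht one_pos
  set m' := (m + t') / (1 + m * t') with hm'
  have hpos : 0 < 1 + m * t' := by positivity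
  have hm'1 : m' < 1 := by
    rw [hm', div_lt_one hpos]
    nlinarith
  refine ⟨f₁ '' closedBall 0 m', ?_, ?_, ?_⟩
  · apply (isCompact_closedBall (0 : V n) m').image_of_continuousOn
    exact hfr₁.hf.continuousOn.mono (closedBall_subset_ball hm'1)
  · rintro _ ⟨x, hx, rfl⟩
    exact hfr₁.hfm (closedBall_subset_ball hm'1 hx)
  · intro z hz f F hfr x hx
    have hxt : ‖x‖ ≤ t' := hx.trans (le_max_left _ _)
    have hxb : x ∈ ball (0 : V n) 1 := by
      simpa using hxt.trans_lt ht'1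
    have hG := hsp n (fun x => F₁ (f x)) (hfr₁.hF.comp hfr.hf hfr.hfm)
      (fun y hy => hfr₁.hFm (hfr.hfm hy)) x hxb
    simp only [hfr.base] at hG
    refine ⟨F₁ (f x), ?_, hfr₁.right _ (hfr.hfm hxb)⟩
    have hmz : ‖F₁ z‖ ≤ m := hmax hz
    have hg1 : ‖F₁ (f x)‖ < 1 := by
      have := hfr₁.hFm (hfr.hfm hxb)
      simpa using this
    have ha0 : 0 ≤ ‖F₁ z‖ := norm_nonneg _
    have hx0 : 0 ≤ ‖x‖ := norm_nonneg _
    have hg0 : 0 ≤ ‖F₁ (f x)‖ := norm_nonneg _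
    rw [mem_closedBall_zero_iff, hm', le_div_iff₀ hpos]
    set g := ‖F₁ (f x)‖
    set a := ‖F₁ z‖
    set b := ‖x‖
    -- g (1 + a b) ≤ a + b, a ≤ m, b ≤ t'
    have e1 : g * (1 + m * b) ≤ m + b := by
      have h1 : g * b ≤ 1 := by nlinarith
      nlinarith [mul_nonneg (sub_nonneg.2 hmz) (sub_nonneg.2 h1)]
    have h2 : g * m ≤ 1 := by nlinarith
    nlinarith [mul_nonneg (sub_nonneg.2 hxt) (sub_nonneg.2 h2)]

end Pool.Agent.W120.SB
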