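import Pool.Agent.W737.SB.Defs

set_option autoImplicit false

open Metric Set

namespace Pool.Agent.W120.SB

open Pool.Agent.W737.SB

/-- second order Taylor formula with a uniform little o -/
theorem taylor2 {E : Type*} [NormedAddCommGroup E] [NormedSpace ℝ E] (ρ : E → ℝ) (p : E)
    (hρ : ContDiff ℝ 2 ρ) (ε : ℝ) (hε : 0 < ε) :
    ∃ δ : ℝ, 0 < δ ∧ ∀ X : E, ‖X‖ < δ →
      |ρ (p + X) - ρ p - fderiv ℝ ρ p X - (1 / 2) * fderiv ℝ (fderiv ℝ ρ) p X X|
        ≤ ε * ‖X‖ ^ 2 := by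
  have hd1 : Differentiable ℝ ρ := hρ.differentiable (by norm_num)
  have hd2 : ContDiff ℝ 1 (fderiv ℝ ρ) := hρ.fderiv_right (m := 1) (by norm_num)
  have hd3 : Differentiable ℝ (fderiv ℝ ρ) := hd2.differentiable (by norm_num)
  have hsym : IsSymmSndFDerivAt ℝ ρ p :=
    (hρ.contDiffAt).isSymmSndFDerivAt (by simp)
  have hlo := (hd3 p).hasFDerivAt.isLittleO
  rw [Asymptotics.isLittleO_iff] at hlo
  have h1 := hlo hε
  rw [Metric.eventually_nhds_iff] at h1
  obtain ⟨δ, hδ, h2⟩ := h1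
  refine ⟨δ, hδ, ?_⟩
  intro X hX
  set D := fderiv ℝ (fderiv ℝ ρ) p with hD
  set L := fderiv ℝ ρ p with hL
  let ψ : E → ℝ := fun Y => ρ (p + Y) - ρ p - L Y - (1 / 2) * D Y Y
  have hψ : ∀ Y, HasFDerivAt ψ (fderiv ℝ ρ (p + Y) - L - D Y) Y := by
    intro Y
    have a1 : HasFDerivAt (fun Y => ρ (p + Y)) (fderiv ℝ ρ (p + Y)) Y := by
      have := (hd1 (p + Y)).hasFDerivAt.comp Y ((hasFDerivAt_id (𝕜 := ℝ) Y).const_add p)
      rw [ContinuousLinearMap.comp_id] at this
      exact this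
    have a2 : HasFDerivAt (fun Y => L Y) L Y := L.hasFDerivAt
    have a3 : HasFDerivAt (fun Y => D Y Y) ((D Y) + (D.flip Y)) Y := by
      have := (D.hasFDerivAt (x := Y)).clm_apply (hasFDerivAt_id Y)
      refine this.congr_fderiv ?_
      ext v
      simp
    have a4 := ((a1.sub_const (ρ p)).sub a2).sub (a3.const_mul (1 / 2))
    refine a4.congr_fderiv ?_
    ext v
    have hs : D v Y = D Y v := hsym v Y
    simp [hs]
    ring
  have hbd : ∀ Y ∈ segment ℝ (0 : E) X, ‖fderiv ℝ ρ (p + Y) - L - D Y‖ ≤ ε * ‖X‖ := by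
    intro Y hY
    have hYX : ‖Y‖ ≤ ‖X‖ := by
      rw [segment_eq_image] at hY
      obtain ⟨θ, ⟨h0, h1⟩, rfl⟩ := hY
      simp only [smul_zero, zero_add, norm_smul, Real.norm_eq_abs, abs_of_nonneg h0]
      exact mul_le_of_le_one_left (norm_nonneg _) h1
    have := @h2 (p + Y) (by simpa using hYX.trans_lt hX)
    simp only [add_sub_cancel_left] at this
    exact this.trans (mul_le_mul_of_nonneg_left hYX hε.le)
  have hmv := (convex_segment (0 : E) X).norm_image_sub_le_of_norm_hasFDerivWithin_le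
    (f := ψ) (fun Y _ => (hψ Y).hasFDerivWithinAt) hbd (left_mem_segment ℝ 0 X)
    (right_mem_segment ℝ 0 X)
  have h0 : ψ 0 = 0 := by simp [ψ]
  rw [h0, sub_zero, sub_zero, Real.norm_eq_abs] at hmv
  calc |ψ X| ≤ ε * ‖X‖ * ‖X‖ := hmv
    _ = ε * ‖X‖ ^ 2 := by ring

theorem bil_aux {n : ℕ} (D : V n →L[ℝ] V n →L[ℝ] ℝ) (hs : ∀ x y, D x y = D y x) (t : ℂ) (w : V n) :
    D (t • w) (t • w) = ‖t‖ ^ 2 * (D w w + D (Complex.I • w) (Complex.I • w)) / 2
      + (t ^ 2 * ((((D w w - D (Complex.I • w) (Complex.I • w)) / 2 : ℝ) : ℂ)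
        - Complex.I * ((D w (Complex.I • w) : ℝ) : ℂ))).re := by
  have htw : t • w = t.re • w + t.im • (Complex.I • w) := by
    rw [← Complex.coe_smul t.re w, ← Complex.coe_smul t.im (Complex.I • w), smul_smul, ← add_smul,
      Complex.re_add_im]
  have hn : ‖t‖ ^ 2 = t.re ^ 2 + t.im ^ 2 := by
    rw [Complex.sq_norm, Complex.normSq_apply]; ring
  have h1 : D (Complex.I • w) w = D w (Complex.I • w) := hs _ _
  rw [htw, hn]
  simp only [map_add, map_smul, _root_.add_apply, _root_.smul_apply,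
    smul_eq_mul, h1, pow_two, Complex.mul_re, Complex.mul_im, Complex.sub_re, Complex.sub_im,
    Complex.ofReal_re, Complex.ofReal_im, Complex.I_re, Complex.I_im]
  ring

theorem t_up : S_up := by
  intro n ρ p ν w c N hρ hp hν hc hgrad hw hiw hH hN
  set D := fderiv ℝ (fderiv ℝ ρ) p with hD
  have hsym : ∀ x y, D x y = D y x := fun x y =>
    (hρ.contDiffAt (x := p)).isSymmSndFDerivAt (by simp) x y
  have hHD : D w w + D (Complex.I • w) (Complex.I • w) ≤ 0 := hH
  set P : ℂ := (((D w w - D (Complex.I • w) (Complex.I • w)) / 2 : ℝ) : ℂ)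
        - Complex.I * ((D w (Complex.I • w) : ℝ) : ℂ) with hP
  set k : ℂ := -P / (2 * (c : ℂ)) with hk
  have hcC : (c : ℂ) ≠ 0 := by exact_mod_cast hc.ne'
  have hck : (c : ℂ) * k = -P / 2 := by
    rw [hk]; field_simp
  set C' : ℝ := 1 + ‖k‖ * N ^ 2 with hC'
  set C : ℝ := N * ‖w‖ + C' with hC
  have hC'pos : 0 < C' := by positivity
  have hCpos : 0 < C := by positivity
  set K : ℝ := ‖D‖ * (2 * (N * ‖w‖) * C' + C' ^ 2) with hK
  have hK0 : 0 ≤ K := by positivity
  obtain ⟨δ, hδ, htay⟩ := taylor2 ρ p hρ (c / (4 * C ^ 2)) (by positivity)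
  -- choice of y₀
  refine ⟨min 1 (min ((δ / C) ^ 2) ((c / (K + 1)) ^ 2)), by positivity, ?_⟩
  intro y hy0 hy
  have hy1 : y < 1 := hy.trans_le (min_le_left _ _)
  have hy2 : y < (δ / C) ^ 2 := hy.trans_le ((min_le_right _ _).trans (min_le_left _ _))
  have hy3 : y < (c / (K + 1)) ^ 2 := hy.trans_le ((min_le_right _ _).trans (min_le_right _ _))
  set r := Real.sqrt y with hr
  have hr0 : 0 < r := Real.sqrt_pos.2 hy0
  have hrr : r ^ 2 = y := Real.sq_sqrt hy0.le
  have hr1 : r < 1 := by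
    by_contra hcon
    push Not at hcon
    nlinarith
  have hr2 : r < δ / C := by
    have : r ^ 2 < (δ / C) ^ 2 := by rw [hrr]; exact hy2
    exact lt_of_pow_lt_pow_left₀ 2 (by positivity) this
  have hr3 : r < c / (K + 1) := by
    have : r ^ 2 < (c / (K + 1)) ^ 2 := by rw [hrr]; exact hy3
    exact lt_of_pow_lt_pow_left₀ 2 (by positivity) this
  refine ⟨fun t => (p - (y : ℂ) • ν) + (t • w + (k * t ^ 2) • ν), ?_, ?_, ?_, ?_⟩
  · intro t
    fun_prop
  · simp
  · have h1 : HasDerivAt (fun t : ℂ => (p - (y : ℂ) • ν) + (t • w + (k * t ^ 2) • ν))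
        ((1 : ℂ) • w + (k * ((2 : ℕ) * (0 : ℂ) ^ (2 - 1))) • ν) 0 := by
      have a1 : HasDerivAt (fun t : ℂ => t • w) ((1 : ℂ) • w) 0 := (hasDerivAt_id (0 : ℂ)).smul_const w
      have a2 : HasDerivAt (fun t : ℂ => (k * t ^ 2) • ν) ((k * ((2 : ℕ) * (0 : ℂ) ^ (2 - 1))) • ν) 0 :=
        ((hasDerivAt_pow 2 (0 : ℂ)).const_mul k).smul_const ν
      exact (a1.add a2).const_add _
    rw [h1.deriv]
    simp
  · intro t ht
    have ht0 : 0 ≤ ‖t‖ := norm_nonneg _
    set E : V n := (-(y : ℂ) + k * t ^ 2) • ν with hE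
    set X : V n := t • w + E with hX
    have hgX : (p - (y : ℂ) • ν) + (t • w + (k * t ^ 2) • ν) = p + X := by
      rw [hX, hE, add_smul, neg_smul]
      abel
    show ρ ((p - (y : ℂ) • ν) + (t • w + (k * t ^ 2) • ν)) < 0
    rw [hgX]
    have ht2 : ‖t‖ ^ 2 ≤ N ^ 2 * y := by
      rw [← hrr, ← mul_pow]
      exact pow_le_pow_left₀ ht0 ht.le 2
    have hEn : ‖E‖ ≤ C' * y := by
      rw [hE, norm_smul, hν, mul_one]
      calc ‖-(y : ℂ) + k * t ^ 2‖ ≤ ‖-(y : ℂ)‖ + ‖k * t ^ 2‖ := norm_add_le _ _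
        _ = y + ‖k‖ * ‖t‖ ^ 2 := by
            rw [norm_neg, norm_mul, norm_pow, Complex.norm_real, Real.norm_eq_abs, abs_of_pos hy0]
        _ ≤ y + ‖k‖ * (N ^ 2 * y) := by gcongr
        _ = C' * y := by rw [hC']; ring
    have htw : ‖t • w‖ ≤ N * ‖w‖ * r := by
      rw [norm_smul]
      calc ‖t‖ * ‖w‖ ≤ (N * r) * ‖w‖ := by gcongr
        _ = _ := by ring
    have hEr : ‖E‖ ≤ C' * r := by
      refine hEn.trans ?_
      have : y ≤ r := by nlinarith
      gcongr
    have hXn : ‖X‖ ≤ C * r := by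
      calc ‖X‖ ≤ ‖t • w‖ + ‖E‖ := norm_add_le _ _
        _ ≤ N * ‖w‖ * r + C' * r := add_le_add htw hEr
        _ = C * r := by rw [hC]; ring
    have hXδ : ‖X‖ < δ := by
      refine hXn.trans_lt ?_
      rw [lt_div_iff₀ hCpos] at hr2
      linarith
    have htay' := htay X hXδ
    rw [hp, sub_zero] at htay'
    have hup := (abs_le.1 htay').2
    -- first order term
    have hfirst : fderiv ℝ ρ p X = -(c * y) + (c * k * t ^ 2).re := by
      have htw0 : fderiv ℝ ρ p (t • w) = 0 := by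
        have : t • w = t.re • w + t.im • (Complex.I • w) := by
          rw [← Complex.coe_smul t.re w, ← Complex.coe_smul t.im (Complex.I • w), smul_smul,
            ← add_smul, Complex.re_add_im]
        rw [this, map_add, map_smul, map_smul, hw, hiw]
        simp
      have hE1 : fderiv ℝ ρ p E = -(c * y) + (c * k * t ^ 2).re := by
        rw [hgrad, hE, inner_smul_right, inner_self_eq_norm_sq_to_K, hν]
        have : (-(y : ℂ) + k * t ^ 2) * ((1 : ℝ) : ℂ) ^ 2 = -(y : ℂ) + k * t ^ 2 := by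
          push_cast; ring
        have e2 : ((c : ℂ) * k * t ^ 2).re = c * (k * t ^ 2).re := by
          rw [mul_assoc, Complex.re_ofReal_mul]
        rw [e2]
        have e3 : ((-(y : ℂ) + k * t ^ 2) * ((1 : ℝ) : ℂ) ^ 2).re = -y + (k * t ^ 2).re := by
          rw [this, Complex.add_re, Complex.neg_re, Complex.ofReal_re]
        simp only [RCLike.ofReal_one] at *
        have e4 : ((-(y : ℂ) + k * t ^ 2) * (1 : ℂ) ^ 2).re = -y + (k * t ^ 2).re := by
          rw [one_pow, mul_one, Complex.add_re, Complex.neg_re, Complex.ofReal_re]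
        rw [e4]; ring
      rw [hX, map_add, htw0, hE1, zero_add]
    have hck2 : (c * k * t ^ 2).re = -(t ^ 2 * P).re / 2 := by
      rw [hck]
      have : (-P / 2 * t ^ 2) = -(t ^ 2 * P) / ((2 : ℝ) : ℂ) := by push_cast; ring
      rw [this, Complex.div_ofReal_re, Complex.neg_re]
    -- second order term
    have hbil := bil_aux D hsym t w
    rw [← hP] at hbil
    have hsecond : D X X ≤ (t ^ 2 * P).re + K * (y * r) := by
      have e1 : D X X = D (t • w) (t • w) + 2 * D (t • w) E + D E E := by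
        rw [hX]
        simp only [map_add, _root_.add_apply]
        rw [hsym E (t • w)]
        ring
      have e2 : D (t • w) (t • w) ≤ (t ^ 2 * P).re := by
        rw [hbil]
        have : ‖t‖ ^ 2 * (D w w + D (Complex.I • w) (Complex.I • w)) / 2 ≤ 0 := by
          have := mul_nonpos_of_nonneg_of_nonpos (sq_nonneg ‖t‖) hHD
          linarith
        linarith
      have e3 : D (t • w) E ≤ ‖D‖ * (N * ‖w‖ * r) * (C' * y) := by
        calc D (t • w) E ≤ ‖D (t • w) E‖ := Real.le_norm_self _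
          _ ≤ ‖D‖ * ‖t • w‖ * ‖E‖ := D.le_opNorm₂ _ _
          _ ≤ _ := by gcongr
      have e4 : D E E ≤ ‖D‖ * (C' * r) * (C' * y) := by
        calc D E E ≤ ‖D E E‖ := Real.le_norm_self _
          _ ≤ ‖D‖ * ‖E‖ * ‖E‖ := D.le_opNorm₂ _ _
          _ ≤ _ := by gcongr
      rw [e1]
      have e5 : K * (y * r) = 2 * (‖D‖ * (N * ‖w‖ * r) * (C' * y)) + ‖D‖ * (C' * r) * (C' * y) := by
        rw [hK]; ring
      linarith
    have hthird : c / (4 * C ^ 2) * ‖X‖ ^ 2 ≤ c / 4 * y := by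
      calc c / (4 * C ^ 2) * ‖X‖ ^ 2 ≤ c / (4 * C ^ 2) * (C * r) ^ 2 := by gcongr
        _ = c / 4 * y := by
            rw [mul_pow, hrr]; field_simp
    have hKr : K * r < c := by
      rw [lt_div_iff₀ (by positivity)] at hr3
      nlinarith
    have hKyr : K * (y * r) < c * y := by
      have := mul_lt_mul_of_pos_right hKr hy0
      nlinarith
    have hcy : 0 < c * y := mul_pos hc hy0
    rw [hfirst, hck2] at hup
    linarith

end Pool.Agent.W120.SB
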